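import Pool.Agent.Helper46.KSZ.St

/-!
KSZ-E13: assembly of the explicit formula part: `ExplicitCells` from the modules.
-/

set_option autoImplicit false
open Filter Topology MeasureTheory Complex
open scoped Classical

namespace Pool.Agent.Helper46.KSZ

open Pool.Agent.Helper10.QRH Pool.Agent.Helper69.QRH

lemma zeroSet_finite (d : ℝ) (k : ℕ) : (zeroSet d k).Finite := by
  set B : ℝ := (2 : ℝ) ^ ((1/2 + 2 * d) * k) with hB
  have hB0 : 0 < B := by positivity
  have h := (isCompact_closedBall (0 : ℂ) (1 + B)).inter_riemannZetaZeros_finite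
  refine h.subset fun ρ hρ => ?_
  obtain ⟨h0, h1, h2⟩ := hρ
  refine ⟨?_, h0⟩
  rw [Metric.mem_closedBall, dist_zero_right]
  have hre : ρ.re < 1 := by
    by_contra hc
    exact riemannZeta_ne_zero_of_one_le_re (not_lt.1 hc) h0
  have h3 : |ρ.re| ≤ 1 := abs_le.2 ⟨by linarith, hre.le⟩
  exact (Complex.norm_le_abs_re_add_abs_im ρ).trans (by linarith)

lemma tri_integral {lam : ℝ} (hl : 0 < lam) : ∫ v : ℝ, tri lam v = 1 := by
  have h := (Helper79.QRH.KK_diff hl).continuous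
  -- use the value of the Laplace transform at `0` as a limit
  have h0 : KK lam 0 = ((∫ v : ℝ, tri lam v : ℝ) : ℂ) := by
    unfold KK
    rw [← integral_complex_ofReal]
    refine integral_congr_ae (Filter.Eventually.of_forall fun v => ?_)
    simp
  have hlim : Tendsto (fun x : ℝ => KK lam (x : ℂ)) (𝓝[≠] (0 : ℝ)) (𝓝 (KK lam 0)) := by
    have h1 : Continuous (fun x : ℝ => KK lam (x : ℂ)) := h.comp Complex.continuous_ofReal
    have := h1.tendsto 0
    simpa using this.mono_left nhdsWithin_le_nhds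
  have hval : ∀ x : ℝ, x ≠ 0 → KK lam (x : ℂ) =
      (((Real.sinh (lam * x / 2) / (lam * x / 2)) ^ 2 : ℝ) : ℂ) := by
    intro x hx
    rw [Helper79.QRH.KK_closed hl (by exact_mod_cast hx)]
    have e1 : Complex.exp ((x : ℂ) * lam) = ((Real.exp (lam * x / 2) ^ 2 : ℝ) : ℂ) := by
      rw [← Real.exp_nat_mul]; push_cast; congr 1; ring
    have e2 : Complex.exp (-(x : ℂ) * lam) = ((Real.exp (-(lam * x / 2)) ^ 2 : ℝ) : ℂ) := by
      rw [← Real.exp_nat_mul]; push_cast; congr 1; ring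
    rw [e1, e2]
    have hee : Real.exp (lam * x / 2) * Real.exp (-(lam * x / 2)) = 1 := by
      rw [← Real.exp_add, add_neg_cancel, Real.exp_zero]
    have hreal : (Real.exp (lam * x / 2) ^ 2 + Real.exp (-(lam * x / 2)) ^ 2 - 2) / (lam * x) ^ 2 =
        (Real.sinh (lam * x / 2) / (lam * x / 2)) ^ 2 := by
      rw [Real.sinh_eq]
      have hlx : lam * x ≠ 0 := mul_ne_zero hl.ne' hx
      have h2 : Real.exp (lam * x / 2) ^ 2 + Real.exp (-(lam * x / 2)) ^ 2 - 2 =
          (Real.exp (lam * x / 2) - Real.exp (-(lam * x / 2))) ^ 2 := by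
        nlinarith [hee]
      rw [h2]
      field_simp
    rw [← hreal]
    push_cast
    ring
  have hlim2 : Tendsto (fun x : ℝ => (((Real.sinh (lam * x / 2) / (lam * x / 2)) ^ 2 : ℝ) : ℂ))
      (𝓝[≠] (0 : ℝ)) (𝓝 (((1 : ℝ) : ℂ))) := by
    refine (Complex.continuous_ofReal.tendsto _).comp ?_
    have hs : Tendsto (fun y : ℝ => Real.sinh y / y) (𝓝[≠] (0 : ℝ)) (𝓝 1) := by
      have := (Real.hasDerivAt_sinh 0).tendsto_slope
      rw [Real.cosh_zero] at this
      refine this.congr fun y => ?_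
      rw [slope_def_field]
      simp
    have hc : Tendsto (fun x : ℝ => lam * x / 2) (𝓝[≠] (0 : ℝ)) (𝓝[≠] (0 : ℝ)) := by
      refine tendsto_nhdsWithin_iff.2 ⟨?_, ?_⟩
      · have : Continuous (fun x : ℝ => lam * x / 2) := by fun_prop
        have := this.tendsto 0
        simp only [mul_zero, zero_div] at this
        exact this.mono_left nhdsWithin_le_nhds
      · filter_upwards [self_mem_nhdsWithin] with x hx
        have hx' : x ≠ 0 := hx
        simp only [Set.mem_compl_iff, Set.mem_singleton_iff]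
        positivity
    have := (hs.comp hc).pow 2
    simpa using this
  have hlim3 : Tendsto (fun x : ℝ => KK lam (x : ℂ)) (𝓝[≠] (0 : ℝ)) (𝓝 (((1 : ℝ) : ℂ))) := by
    refine hlim2.congr' ?_
    filter_upwards [self_mem_nhdsWithin] with x hx
    exact (hval x hx).symm
  have := tendsto_nhds_unique hlim hlim3
  rw [h0] at this
  exact_mod_cast this

/-- the trivial bound with constant `1` -/
lemma KK_norm_le {lam : ℝ} (hl : 0 < lam) (s : ℂ) : ‖KK lam s‖ ≤ Real.exp (lam * |s.re|) := by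
  unfold KK
  have hint : Integrable (fun v : ℝ => tri lam v * Real.exp (lam * |s.re|)) := by
    refine Integrable.mul_const ?_ _
    by_contra hc
    have := tri_integral hl
    rw [integral_undef hc] at this
    exact zero_ne_one this
  refine (norm_integral_le_of_norm_le hint (Filter.Eventually.of_forall fun v => ?_)).trans ?_
  · rw [norm_mul, Complex.norm_real, Real.norm_of_nonneg (Helper79.QRH.tri_nonneg hl)]
    by_cases hv : lam ≤ |v|
    · rw [Helper79.QRH.tri_zero hl hv]; simp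
    · exact mul_le_mul_of_nonneg_left (Helper79.QRH.norm_exp_le s (not_le.1 hv).le)
        (Helper79.QRH.tri_nonneg hl)
  · rw [integral_mul_const, tri_integral hl, one_mul]

lemma KK_one_ge {lam : ℝ} (hlam : 0 < lam) : ∃ κ : ℝ, 1 ≤ κ ∧ KK lam 1 = κ := by
  refine ⟨(Real.exp lam + Real.exp (-lam) - 2) / lam ^ 2, ?_, ?_⟩
  · rw [le_div_iff₀ (by positivity), one_mul]
    have h1 : lam / 2 ≤ Real.sinh (lam / 2) := Real.self_le_sinh_iff.2 (by positivity)
    have h2 : Real.exp lam + Real.exp (-lam) - 2 = (2 * Real.sinh (lam / 2)) ^ 2 := by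
      rw [Real.sinh_eq]
      have e1 : Real.exp lam = Real.exp (lam / 2) ^ 2 := by
        rw [← Real.exp_nat_mul]; congr 1; push_cast; ring
      have e2 : Real.exp (-lam) = Real.exp (-(lam / 2)) ^ 2 := by
        rw [← Real.exp_nat_mul]; congr 1; push_cast; ring
      have hee : Real.exp (lam / 2) * Real.exp (-(lam / 2)) = 1 := by
        rw [← Real.exp_add, add_neg_cancel, Real.exp_zero]
      rw [e1, e2]
      nlinarith
    rw [h2]
    nlinarith
  · rw [Helper79.QRH.KK_closed hlam one_ne_zero]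
    push_cast
    simp

lemma ev_sq (A : ℝ) : ∃ K : ℕ, ∀ k : ℕ, K ≤ k → A * (k : ℝ) ^ 2 ≤ (2 : ℝ) ^ k := by
  have h2 := (tendsto_pow_const_div_const_pow_of_one_lt 2 (show (1 : ℝ) < 2 by norm_num)).const_mul A
  rw [mul_zero] at h2
  have h4 := h2.eventually (gt_mem_nhds (show (0 : ℝ) < 1 by norm_num))
  obtain ⟨K, hK⟩ := eventually_atTop.mp h4
  refine ⟨K, fun k hk => ?_⟩
  have h5 := hK k hk
  rw [← mul_div_assoc, div_lt_one (by positivity)] at h5
  exact h5.le

lemma ee_le {d : ℝ} (hd : 0 < d) (k : ℕ) : ee d k ≤ k := by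
  unfold ee
  refine Nat.floor_le_of_le ?_
  have : (0 : ℝ) ≤ k := k.cast_nonneg
  nlinarith

/-- numerical error of the shifted formula -/
lemma err_small (C : ℝ) (hC : 0 < C) (p : ℕ) (hp : 1 ≤ p) (d : ℝ) (hd : 0 < d) :
    ∃ K : ℕ, ∀ k : ℕ, K ≤ k → ∀ u : ℝ, Real.exp u ≤ 2 * 2 ^ k →
      C * Real.exp (2 * (u + ((p - 1 : ℕ) : ℝ) * lamk p d k)) *
        (Real.log ((2 : ℝ) ^ (5 * k) + 2)) ^ 2 / (lamk p d k ^ 2 * 2 ^ (5 * k)) ≤ 1/100 * 2 ^ k := by
  obtain ⟨K, hK⟩ := ev_sq (C * 8 * 25 * 64 * p ^ 2 * 100)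
  refine ⟨max K 1, fun k hk u hu => ?_⟩
  have hkK : K ≤ k := le_trans (le_max_left _ _) hk
  have hk1 : 1 ≤ k := le_trans (le_max_right _ _) hk
  have hk1r : (1 : ℝ) ≤ k := by exact_mod_cast hk1
  have hpr : (1 : ℝ) ≤ p := by exact_mod_cast hp
  set X : ℝ := (2 : ℝ) ^ k with hX
  have hX1 : 1 ≤ X := one_le_pow₀ (by norm_num)
  have hX0 : 0 < X := by linarith
  set H : ℝ := (2 : ℝ) ^ ee d k with hH
  have hH1 : 1 ≤ H := one_le_pow₀ (by norm_num)
  have hHX : H ≤ X := pow_le_pow_right₀ (by norm_num) (ee_le hd k)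
  have hlam : lamk p d k = H / (8 * p * X) := rfl
  have hlam0 : 0 < lamk p d k := by rw [hlam]; positivity
  -- the exponential
  have hpl : ((p - 1 : ℕ) : ℝ) * lamk p d k ≤ 1 / 8 := by
    have h1 : ((p - 1 : ℕ) : ℝ) ≤ p := by exact_mod_cast Nat.sub_le p 1
    calc ((p - 1 : ℕ) : ℝ) * lamk p d k ≤ p * (H / (8 * p * X)) := by
          rw [hlam]; gcongr
      _ = H / X / 8 := by field_simp
      _ ≤ 1 / 8 := by
          have : H / X ≤ 1 := by rw [div_le_one hX0]; exact hHX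
          linarith
  have hexp : Real.exp (2 * (u + ((p - 1 : ℕ) : ℝ) * lamk p d k)) ≤ 8 * X ^ 2 := by
    have h1 : Real.exp (2 * (u + ((p - 1 : ℕ) : ℝ) * lamk p d k)) =
        Real.exp u ^ 2 * Real.exp (2 * (((p - 1 : ℕ) : ℝ) * lamk p d k)) := by
      rw [← Real.exp_nat_mul, ← Real.exp_add]; congr 1; push_cast; ring
    have h2 : Real.exp (2 * (((p - 1 : ℕ) : ℝ) * lamk p d k)) ≤ 2 := by
      have h3 : Real.exp (2 * (((p - 1 : ℕ) : ℝ) * lamk p d k)) ≤ Real.exp (1 / 2) :=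
        Real.exp_le_exp.2 (by linarith)
      have h4 : Real.exp (1 / 2 : ℝ) ^ 2 ≤ 2 ^ 2 := by
        rw [← Real.exp_nat_mul]
        have := Real.exp_one_lt_d9
        norm_num
        linarith
      have h5 := Real.exp_pos (1/2 : ℝ)
      nlinarith
    have h6 : Real.exp u ^ 2 ≤ (2 * X) ^ 2 := pow_le_pow_left₀ (Real.exp_pos _).le hu 2
    rw [h1]
    have h7 := Real.exp_pos (2 * (((p - 1 : ℕ) : ℝ) * lamk p d k))
    nlinarith [sq_nonneg (Real.exp u)]
  -- the logarithm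
  have hlog : (Real.log ((2 : ℝ) ^ (5 * k) + 2)) ^ 2 ≤ 25 * (k : ℝ) ^ 2 := by
    have h1 : (2 : ℝ) ^ (5 * k) + 2 ≤ 2 ^ (5 * k + 1) := by
      have : (2 : ℝ) ^ 1 ≤ 2 ^ (5 * k) := pow_le_pow_right₀ (by norm_num) (by omega)
      rw [pow_succ]
      linarith
    have h2 : Real.log ((2 : ℝ) ^ (5 * k) + 2) ≤ 5 * k := by
      have h3 := Real.log_le_log (by positivity) h1
      rw [Real.log_pow] at h3
      push_cast at h3
      have h4 := Real.log_two_lt_d9
      have h5 : (5 * (k : ℝ) + 1) * Real.log 2 ≤ (5 * k + 1) * 0.7 := by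
        gcongr
        linarith
      linarith
    have h6 : 0 ≤ Real.log ((2 : ℝ) ^ (5 * k) + 2) := Real.log_nonneg (by
      have : (0 : ℝ) < 2 ^ (5 * k) := by positivity
      linarith)
    nlinarith
  have hT : (2 : ℝ) ^ (5 * k) = X ^ 5 := by rw [hX, ← pow_mul, mul_comm]
  have hden : 1 / (64 * p ^ 2) * X ^ 3 ≤ lamk p d k ^ 2 * 2 ^ (5 * k) := by
    rw [hT, hlam]
    have : (H / (8 * p * X)) ^ 2 * X ^ 5 = H ^ 2 * (1 / (64 * p ^ 2) * X ^ 3) := by
      field_simp
      ring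
    rw [this]
    have h1 : 1 ≤ H ^ 2 := one_le_pow₀ hH1
    have h2 : 0 ≤ 1 / (64 * (p : ℝ) ^ 2) * X ^ 3 := by positivity
    nlinarith
  have hden0 : 0 < lamk p d k ^ 2 * 2 ^ (5 * k) := by positivity
  rw [div_le_iff₀ hden0]
  have hmain := hK k hkK
  calc C * Real.exp (2 * (u + ((p - 1 : ℕ) : ℝ) * lamk p d k)) *
        (Real.log ((2 : ℝ) ^ (5 * k) + 2)) ^ 2 ≤ C * (8 * X ^ 2) * (25 * (k : ℝ) ^ 2) := by
        gcongr
    _ = 1 / (64 * p ^ 2) * X ^ 2 / 100 * (C * 8 * 25 * 64 * p ^ 2 * 100 * k ^ 2) := by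
        field_simp
    _ ≤ 1 / (64 * p ^ 2) * X ^ 2 / 100 * X := by gcongr
    _ ≤ 1 / 100 * X * (1 / (64 * p ^ 2) * X ^ 3) := by
        have h1 : X ^ 3 ≤ X ^ 4 := pow_le_pow_right₀ hX1 (by norm_num)
        have h2 : 0 ≤ 1 / (64 * (p : ℝ) ^ 2) / 100 := by positivity
        calc 1 / (64 * (p : ℝ) ^ 2) * X ^ 2 / 100 * X = 1 / (64 * (p : ℝ) ^ 2) / 100 * X ^ 3 := by ring
          _ ≤ 1 / (64 * (p : ℝ) ^ 2) / 100 * X ^ 4 := by gcongr
          _ = _ := by ring
    _ ≤ 1 / 100 * X * (lamk p d k ^ 2 * 2 ^ (5 * k)) := by gcongr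

theorem explicitCells (h1 : BoxExists) (h9 : ShiftIter) (h10 : PrimeSide) (h11 : LineFew)
    (h12 : HighZeros) : ExplicitCells := by
  refine ⟨zeroSet_finite, fun d hd hd1 => ?_⟩
  obtain ⟨p, hp, K12, hK12⟩ := h12 d hd hd1
  obtain ⟨K10, hK10⟩ := h10 p d hp hd hd1
  obtain ⟨K11, hK11⟩ := h11 p d hp hd hd1
  obtain ⟨C, hC, hC9⟩ := h9
  obtain ⟨Ke, hKe⟩ := err_small C hC p hp d hd
  have hpr : (1 : ℝ) ≤ p := by exact_mod_cast hp
  refine ⟨1 / (200 * p), by positivity, max (max K12 K10) (max (max K11 Ke) 10), fun k hk => ?_⟩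
  have hkA : K12 ≤ k := le_trans (le_trans (le_max_left _ _) (le_max_left _ _)) hk
  have hkB : K10 ≤ k := le_trans (le_trans (le_max_right _ _) (le_max_left _ _)) hk
  have hkC : K11 ≤ k := le_trans (le_trans (le_trans (le_max_left _ _) (le_max_left _ _)) (le_max_right _ _)) hk
  have hkD : Ke ≤ k := le_trans (le_trans (le_trans (le_max_right _ _) (le_max_left _ _)) (le_max_right _ _)) hk
  have hkE : 10 ≤ k := le_trans (le_trans (le_max_right _ _) (le_max_right _ _)) hk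
  set X : ℝ := (2 : ℝ) ^ k with hX
  have hX10 : (1000 : ℝ) ≤ X := by
    have : (2 : ℝ) ^ 10 ≤ 2 ^ k := pow_le_pow_right₀ (by norm_num) hkE
    rw [hX]; norm_num at this ⊢; linarith
  have hX0 : 0 < X := by linarith
  have hX1 : 1 ≤ X := by linarith
  have hXk : ((2 ^ k : ℕ) : ℝ) = X := by push_cast; rfl
  obtain ⟨M, Z, hBox⟩ := h1 (2 ^ (5 * k)) (by positivity)
  set T : ℝ := (2 : ℝ) ^ (5 * k) with hT
  have hT1 : 1 ≤ T := one_le_pow₀ (by norm_num)
  set lam : ℝ := lamk p d k with hlam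
  set H : ℝ := (2 : ℝ) ^ ee d k with hH
  have hH1 : 1 ≤ H := one_le_pow₀ (by norm_num)
  have hHX : H ≤ X := pow_le_pow_right₀ (by norm_num) (ee_le hd k)
  have hlamE : lam = H / (8 * p * X) := rfl
  have hlam0 : 0 < lam := by rw [hlamE]; positivity
  have hplam : p * lam ≤ 1 / 8 := by
    rw [hlamE]
    have : (p : ℝ) * (H / (8 * p * X)) = H / X / 8 := by field_simp
    rw [this]
    have : H / X ≤ 1 := by rw [div_le_one hX0]; exact hHX
    linarith
  have hlam1 : lam ≤ 1 := by nlinarith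
  refine ⟨fun ρ => KK lam ρ ^ p, (Finset.range (2 ^ (k - ee d k))).filter (fun j =>
      1/100 * (2 : ℝ) ^ k ≤ ‖line p (lamk p d k) (2 ^ (5 * k)) Z (uu d k j)‖), ?_,
      hK11 k hkC M Z hBox, ?_⟩
  · intro ρ hρ0 hρ1
    rw [norm_pow]
    have h2 := KK_norm_le hlam0 ρ
    have h3 : |ρ.re| ≤ 1 := abs_le.2 ⟨by linarith, hρ1⟩
    calc ‖KK lam ρ‖ ^ p ≤ (Real.exp (lam * |ρ.re|)) ^ p := pow_le_pow_left₀ (norm_nonneg _) h2 p
      _ = Real.exp (p * (lam * |ρ.re|)) := by rw [Real.exp_nat_mul]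
      _ ≤ Real.exp (1 / 2) := by
          apply Real.exp_le_exp.2
          have : (p : ℝ) * (lam * |ρ.re|) = (p * lam) * |ρ.re| := by ring
          rw [this]
          have := abs_nonneg ρ.re
          nlinarith
      _ ≤ 2 := by
          have h4 : Real.exp (1 / 2 : ℝ) ^ 2 ≤ 2 ^ 2 := by
            rw [← Real.exp_nat_mul]
            have := Real.exp_one_lt_d9
            norm_num
            linarith
          have h5 := Real.exp_pos (1/2 : ℝ)
          nlinarith
  intro j hj hjE hfew S hS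
  set u : ℝ := uu d k j with hu
  -- the centre
  set y : ℕ := 2 ^ k + j * 2 ^ ee d k with hy
  have hyX : X ≤ y := by
    rw [← hXk]
    exact_mod_cast (by rw [hy]; exact Nat.le_add_right _ _ : 2 ^ k ≤ y)
  have hek := ee_le hd k
  have hy2 : (y : ℝ) + H ≤ 2 * X := by
    have h2 : y + 2 ^ ee d k ≤ 2 ^ (k + 1) := by
      have h3 : (j + 1) * 2 ^ ee d k ≤ 2 ^ (k - ee d k) * 2 ^ ee d k := Nat.mul_le_mul_right _ hj
      rw [← pow_add, Nat.sub_add_cancel hek] at h3
      rw [pow_succ, hy]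
      have h4 : (j + 1) * 2 ^ ee d k = j * 2 ^ ee d k + 2 ^ ee d k := by ring
      omega
    have h3 : ((y + 2 ^ ee d k : ℕ) : ℝ) ≤ ((2 ^ (k + 1) : ℕ) : ℝ) := by exact_mod_cast h2
    push_cast at h3
    rw [pow_succ] at h3
    rw [hH, hX]
    linarith
  have heu : Real.exp u = (y : ℝ) + H / 2 := by
    rw [hu]
    unfold uu
    rw [Real.exp_log (by positivity)]
  have heuX : X ≤ Real.exp u := by rw [heu]; linarith
  have heuX2 : Real.exp u ≤ 2 * X := by rw [heu]; linarith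
  have hu1 : 1 + ((p - 1 : ℕ) : ℝ) * lam ≤ u := by
    have h2 : ((p - 1 : ℕ) : ℝ) ≤ p := by exact_mod_cast Nat.sub_le p 1
    have h3 : ((p - 1 : ℕ) : ℝ) * lam ≤ 1 / 8 := (mul_le_mul_of_nonneg_right h2 hlam0.le).trans hplam
    have h4 : (2 : ℝ) ≤ u := by
      by_contra hc
      have h5 : Real.exp u < Real.exp 2 := Real.exp_lt_exp.2 (not_le.1 hc)
      have h6 : Real.exp 2 ≤ 9 := by
        have h7 : Real.exp 2 = Real.exp 1 ^ 2 := by rw [← Real.exp_nat_mul]; norm_num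
        rw [h7]
        have h8 := Real.exp_one_lt_d9
        have h9 := Real.exp_pos 1
        nlinarith
      linarith
    linarith
  have hp1 : p - 1 + 1 = p := Nat.sub_add_cancel hp
  -- the formula
  have hform := hC9 T M Z hT1 hBox lam u (p - 1) hlam0 hlam1 hu1
  rw [hp1] at hform
  have herr := hKe k hkD u heuX2
  have hform2 : ‖lhs (ker lam (p - 1)) p lam M u - line p lam T Z u‖ ≤ 1/100 * X :=
    hform.trans herr
  have hline : ‖line p lam T Z u‖ < 1/100 * X := by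
    by_contra hc
    apply hjE
    rw [Finset.mem_filter, Finset.mem_range]
    exact ⟨hj, not_lt.1 hc⟩
  have hlhs : ‖lhs (ker lam (p - 1)) p lam M u‖ ≤ 1/50 * X := by
    have := norm_add_le (lhs (ker lam (p - 1)) p lam M u - line p lam T Z u) (line p lam T Z u)
    rw [sub_add_cancel] at this
    linarith
  have hprime := hK10 k hkB j hj hfew
  set P : ℝ := ∑' n : ℕ, ArithmeticFunction.vonMangoldt n * ker lam (p - 1) (u - Real.log n) with hP
  have hP8 : P ≤ 1/8 * X := hprime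
  obtain ⟨κ, hκ, hκe⟩ := KK_one_ge hlam0
  have hκp : 1 ≤ κ ^ p := one_le_pow₀ hκ
  have hlhsE : lhs (ker lam (p - 1)) p lam M u = ((P - Real.exp u * κ ^ p : ℝ) : ℂ) +
      (M.map (fun ρ => Complex.exp (ρ * u) * KK lam ρ ^ p)).sum := by
    unfold lhs
    rw [hκe, ← hP]
    push_cast
    ring
  have hmainlow : Real.exp u - 1/8 * X - 1/50 * X ≤
      ‖(M.map (fun ρ => Complex.exp (ρ * u) * KK lam ρ ^ p)).sum‖ := by
    have h2 : ‖((P - Real.exp u * κ ^ p : ℝ) : ℂ)‖ ≥ Real.exp u - 1/8 * X := by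
      rw [Complex.norm_real, Real.norm_eq_abs, abs_sub_comm]
      refine le_trans ?_ (le_abs_self _)
      have := Real.exp_pos u
      nlinarith
    have h3 := norm_sub_le_norm_add ((P - Real.exp u * κ ^ p : ℝ) : ℂ)
      (M.map (fun ρ => Complex.exp (ρ * u) * KK lam ρ ^ p)).sum
    rw [← hlhsE] at h3
    linarith
  -- low and high zeros
  set B : ℝ := (2 : ℝ) ^ ((1/2 + 2 * d) * k) with hB
  set Mh := M.filter (fun ρ => B < |ρ.im|) with hMh
  set Ml := M.filter (fun ρ => ¬ B < |ρ.im|) with hMl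
  have hsplit : Mh + Ml = M := Multiset.filter_add_not _ _
  have hhigh := hK12 k hkA M Z hBox j hj
  have hhigh2 : ‖(Mh.map (fun ρ => Complex.exp (ρ * u) * KK lam ρ ^ p)).sum‖ ≤ 1 := by
    refine le_trans ?_ hhigh
    have h2 := Multiset.le_sum_of_subadditive (fun z : ℂ => ‖z‖) (by simp) (fun a b => norm_add_le a b)
      (Mh.map (fun ρ => Complex.exp (ρ * u) * KK lam ρ ^ p))
    rw [Multiset.map_map] at h2
    exact h2
  have hlow : Real.exp u - 1/8 * X - 1/50 * X - 1 ≤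
      ‖(Ml.map (fun ρ => Complex.exp (ρ * u) * KK lam ρ ^ p)).sum‖ := by
    have h2 : (M.map (fun ρ => Complex.exp (ρ * u) * KK lam ρ ^ p)).sum =
        (Mh.map (fun ρ => Complex.exp (ρ * u) * KK lam ρ ^ p)).sum +
        (Ml.map (fun ρ => Complex.exp (ρ * u) * KK lam ρ ^ p)).sum := by
      rw [← hsplit, Multiset.map_add, Multiset.sum_add]
    have h3 := norm_add_le (Mh.map (fun ρ => Complex.exp (ρ * u) * KK lam ρ ^ p)).sum
      (Ml.map (fun ρ => Complex.exp (ρ * u) * KK lam ρ ^ p)).sum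
    rw [← h2] at h3
    linarith
  -- the finset
  have hBT : B < T + 2 := by
    have h2 : B ≤ T := by
      rw [hB, hT, ← Real.rpow_natCast]
      apply Real.rpow_le_rpow_of_exponent_le (by norm_num)
      push_cast
      exact mul_le_mul_of_nonneg_right (by linarith) k.cast_nonneg
    linarith
  have hmemS : ∀ ρ, ρ ∈ S ↔ ρ ∈ Ml := by
    intro ρ
    rw [hS, hMl, Multiset.mem_filter]
    constructor
    · rintro ⟨h2, h3, h4⟩
      refine ⟨?_, not_lt.2 h4⟩
      have hρT : |ρ.im| < T + 2 := lt_of_le_of_lt h4 hBT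
      have hne := hBox.ne ρ h3 hρT
      have hρ1 : ρ ≠ 1 := by
        rintro rfl
        exact riemannZeta_one_ne_zero h2
      have hE0 : EZ ρ = 0 := by rw [EZ_eq hρ1, h2, mul_zero]
      have hQ := hBox.eq ρ
      rw [hE0] at hQ
      have hQ0 : Qp M ρ = 0 := by
        rcases mul_eq_zero.1 hQ.symm with h | h
        · exact h
        · exact absurd h hne
      by_contra hc
      exact Qp_ne_zero M ρ (fun a ha hρa => hc (hρa ▸ ha)) hQ0
    · rintro ⟨h2, h3⟩
      obtain ⟨h4, h5, h6, h7⟩ := hBox.mem ρ h2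
      exact ⟨h4, h5, not_lt.1 h3⟩
  have hSfin : Ml.toFinset = S := by
    ext ρ
    rw [Multiset.mem_toFinset, hmemS]
  have hsum : (Ml.map (fun ρ => Complex.exp (ρ * u) * KK lam ρ ^ p)).sum =
      Complex.exp u * ∑ ρ ∈ S, (analyticOrderNatAt riemannZeta ρ : ℂ) * (KK lam ρ ^ p) *
        Complex.exp ((ρ - 1) * u) := by
    rw [Finset.sum_multiset_map_count, hSfin, Finset.mul_sum]
    refine Finset.sum_congr rfl fun ρ hρ => ?_
    have h2 := (hmemS ρ).1 hρ
    rw [hMl, Multiset.mem_filter] at h2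
    obtain ⟨h4, h5, h6, h7⟩ := hBox.mem ρ h2.1
    have hcount : Ml.count ρ = analyticOrderNatAt riemannZeta ρ := by
      rw [hMl, Multiset.count_filter_of_pos (p := fun ρ : ℂ => ¬ B < |ρ.im|) h2.2]
      exact hBox.count ρ h4 h5 h7
    rw [hcount, nsmul_eq_mul]
    have h8 : Complex.exp (ρ * u) = Complex.exp u * Complex.exp ((ρ - 1) * u) := by
      rw [← Complex.exp_add]; congr 1; ring
    rw [h8]
    ring
  rw [hsum, norm_mul, Complex.norm_exp, Complex.ofReal_re] at hlow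
  have hupos := Real.exp_pos u
  have hfin : Real.exp u * (3/4) ≤ Real.exp u * ‖∑ ρ ∈ S, (analyticOrderNatAt riemannZeta ρ : ℂ) *
      (KK lam ρ ^ p) * Complex.exp ((ρ - 1) * u)‖ := by
    refine le_trans ?_ hlow
    linarith
  exact le_of_mul_le_mul_left hfin hupos

end Pool.Agent.Helper46.KSZ
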