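import Pool.Agent.Helper69.QRH.A2
import Pool.Agent.Helper52.QRH.Explicit
import Pool.Agent.Helper52.QRH.Duality
import Pool.Agent.Helper79.QRH.KFacts

/-!
# Project KSZ, explicit formula (helper46): definitions and module statements

Paper proof: `KS_zeros.md`, PART A.
-/

set_option autoImplicit false
open Filter Topology MeasureTheory Complex
open scoped Classical

namespace Pool.Agent.Helper46.KSZ

open Pool.Agent.Helper10.QRH Pool.Agent.Helper69.QRH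

/-- `M` is the multiset of all zeros of zeta (with multiplicity) in the box
`3/5 < Re s, |Im s| < T + 2`, and `Z = (s-1) ζ(s) / ∏ (s - ρ)`. -/
structure Box (T : ℝ) (M : Multiset ℂ) (Z : ℂ → ℂ) : Prop where
  diff : Differentiable ℂ Z
  eq : ∀ z, EZ z = Qp M z * Z z
  mem : ∀ ρ ∈ M, riemannZeta ρ = 0 ∧ 3/5 < ρ.re ∧ ρ.re < 1 ∧ |ρ.im| < T + 2
  ne : ∀ z : ℂ, 3/5 < z.re → |z.im| < T + 2 → Z z ≠ 0
  count : ∀ ρ : ℂ, riemannZeta ρ = 0 → 3/5 < ρ.re → |ρ.im| < T + 2 →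
    M.count ρ = analyticOrderNatAt riemannZeta ρ

/-- E1 -/
def BoxExists : Prop := ∀ T : ℝ, 0 ≤ T → ∃ (M : Multiset ℂ) (Z : ℂ → ℂ), Box T M Z

/-- E2: Jensen's inequality for `EZ` at `2 + i t` -/
def JensenEZ : Prop := ∃ C : ℝ, 0 < C ∧ ∀ (N : Multiset ℂ) (Z : ℂ → ℂ), Differentiable ℂ Z →
  (∀ z, EZ z = Qp N z * Z z) → ∀ t : ℝ, (∀ ρ ∈ N, ‖ρ - (2 + t * Complex.I)‖ ≤ 1.45) →
    (Multiset.card N : ℝ) ≤ C * Real.log (|t| + 2)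

/-- the zeros of `M` in the disc of radius `1.4` about `2 + i t` -/
noncomputable def near (M : Multiset ℂ) (t : ℝ) : Multiset ℂ :=
  M.filter (fun ρ => ‖ρ - (2 + t * Complex.I)‖ < 1.4)

/-- the other zeros -/
noncomputable def far (M : Multiset ℂ) (t : ℝ) : Multiset ℂ :=
  M.filter (fun ρ => ¬ ‖ρ - (2 + t * Complex.I)‖ < 1.4)

/-- E3: the logarithmic derivative of `EZ / ∏_{near}` -/
def LocalLog : Prop := ∃ C : ℝ, 0 < C ∧ ∀ (T : ℝ) (M : Multiset ℂ) (Z : ℂ → ℂ), 1 ≤ T → Box T M Z →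
  ∀ s : ℂ, 0.605 ≤ s.re → s.re ≤ 2 → |s.im| ≤ T →
    Qp (far M s.im) s * Z s ≠ 0 ∧
    ‖logDeriv (fun z => Qp (far M s.im) z * Z z) s‖ ≤ C * Real.log (|s.im| + 2)

/-- E4: sums over the zeros of the box -/
def FarSum : Prop := ∃ C : ℝ, 0 < C ∧ ∀ (T : ℝ) (M : Multiset ℂ) (Z : ℂ → ℂ), 1 ≤ T → Box T M Z →
  ∀ (N : Multiset ℂ), N ≤ M → ∀ s : ℂ, (∀ ρ ∈ N, 0.003 ≤ ‖s - ρ‖) →
    (N.map (fun ρ => 1 / ‖s - ρ‖)).sum ≤ C * (Real.log (T + 2)) ^ 2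

/-- E4': the number of zeros of the box -/
def CardBox : Prop := ∃ C : ℝ, 0 < C ∧ ∀ (T : ℝ) (M : Multiset ℂ) (Z : ℂ → ℂ), 1 ≤ T → Box T M Z →
  (Multiset.card M : ℝ) ≤ C * T * Real.log (T + 2)

/-- E5: bounds for `Z'/Z` -/
def GBound : Prop := ∃ C : ℝ, 0 < C ∧ ∀ (T : ℝ) (M : Multiset ℂ) (Z : ℂ → ℂ), 1 ≤ T → Box T M Z →
  (∀ s : ℂ, 0.605 ≤ s.re → s.re ≤ 2 → |s.im| ≤ T → ‖logDeriv Z s‖ ≤ C * (Real.log (T + 2)) ^ 2) ∧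
  (∀ t : ℝ, ‖logDeriv Z (2 + t * Complex.I)‖ ≤ C * (Real.log (T + 2)) ^ 2)

/-- the left side of the explicit formula, kernel `K`, powers `p` of `KK` -/
noncomputable def lhs (K : ℝ → ℝ) (p : ℕ) (lam : ℝ) (M : Multiset ℂ) (u : ℝ) : ℂ :=
  ((∑' n : ℕ, ArithmeticFunction.vonMangoldt n * K (u - Real.log n) : ℝ) : ℂ)
    - Complex.exp u * KK lam 1 ^ p + (M.map (fun ρ => Complex.exp (ρ * u) * KK lam ρ ^ p)).sum

/-- the line integral -/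
noncomputable def line (p : ℕ) (lam T : ℝ) (Z : ℂ → ℂ) (u : ℝ) : ℂ :=
  (1 / (2 * Real.pi)) * ∫ t in (-T)..T, KK lam ((0.605 : ℝ) + t * Complex.I) ^ p *
    (-logDeriv Z ((0.605 : ℝ) + t * Complex.I)) * Complex.exp (((0.605 : ℝ) + t * Complex.I) * u)

/-- E6: exact identity on `Re s = 2` -/
def LineTwo : Prop := ∀ (T : ℝ) (M : Multiset ℂ) (Z : ℂ → ℂ), 1 ≤ T → Box T M Z →
  ∀ lam u : ℝ, 0 < lam → lam ≤ 1 → 1 ≤ u →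
    Integrable (fun t : ℝ => KK lam ((2 : ℝ) + t * Complex.I) *
      (-logDeriv Z ((2 : ℝ) + t * Complex.I)) * Complex.exp (((2 : ℝ) + t * Complex.I) * u)) ∧
    lhs (tri lam) 1 lam M u = (1 / (2 * Real.pi)) * ∫ t : ℝ, KK lam ((2 : ℝ) + t * Complex.I) *
      (-logDeriv Z ((2 : ℝ) + t * Complex.I)) * Complex.exp (((2 : ℝ) + t * Complex.I) * u)

/-- E7: shift to the line `0.605` -/
def Shift : Prop := ∃ C : ℝ, 0 < C ∧ ∀ (T : ℝ) (M : Multiset ℂ) (Z : ℂ → ℂ), 1 ≤ T → Box T M Z →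
  ∀ lam u : ℝ, 0 < lam → lam ≤ 1 → 1 ≤ u →
    ‖lhs (tri lam) 1 lam M u - line 1 lam T Z u‖ ≤
      C * Real.exp (2 * u) * (Real.log (T + 2)) ^ 2 / (lam ^ 2 * T)

/-- iterated triangle kernels (`p = j + 1` factors) -/
noncomputable def ker (lam : ℝ) : ℕ → ℝ → ℝ
  | 0 => tri lam
  | j + 1 => fun v => ∫ w : ℝ, tri lam w * ker lam j (v - w)

/-- E8: facts on the iterated kernels -/
def KerFacts : Prop := ∀ lam : ℝ, 0 < lam → ∀ j : ℕ, Continuous (ker lam j) ∧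
  (∀ v, 0 ≤ ker lam j v) ∧ (∀ v, ker lam j v ≤ 1 / lam) ∧
  (∀ v, (j + 1) * lam ≤ |v| → ker lam j v = 0)

/-- E9: the explicit formula with the iterated kernel -/
def ShiftIter : Prop := ∃ C : ℝ, 0 < C ∧ ∀ (T : ℝ) (M : Multiset ℂ) (Z : ℂ → ℂ), 1 ≤ T → Box T M Z →
  ∀ lam u : ℝ, ∀ j : ℕ, 0 < lam → lam ≤ 1 → 1 + j * lam ≤ u →
    ‖lhs (ker lam j) (j + 1) lam M u - line (j + 1) lam T Z u‖ ≤
      C * Real.exp (2 * (u + j * lam)) * (Real.log (T + 2)) ^ 2 / (lam ^ 2 * T)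

/-- length exponent of the cells of block `k` -/
noncomputable def ee (d : ℝ) (k : ℕ) : ℕ := ⌊(k : ℝ) * (1/2 - d)⌋₊

/-- the `j`-th cell of block `k` -/
noncomputable def cell (d : ℝ) (k j : ℕ) : Finset ℕ :=
  Finset.Ico (2 ^ k + j * 2 ^ ee d k) (2 ^ k + (j + 1) * 2 ^ ee d k)

/-- logarithm of the centre of the cell -/
noncomputable def uu (d : ℝ) (k j : ℕ) : ℝ :=
  Real.log ((2 ^ k + j * 2 ^ ee d k : ℕ) + (2 : ℝ) ^ ee d k / 2)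

/-- few primes -/
def Few (c₀ d : ℝ) (k j : ℕ) : Prop :=
  (((cell d k j).filter Nat.Prime).card : ℝ) < c₀ * (2 : ℝ) ^ ee d k / k

/-- the kernel width for the iterated kernel with `p` factors -/
noncomputable def lamk (p : ℕ) (d : ℝ) (k : ℕ) : ℝ := (2 : ℝ) ^ ee d k / (8 * p * 2 ^ k)

/-- E10: a cell with few primes makes the prime side small -/
def PrimeSide : Prop := ∀ (p : ℕ) (d : ℝ), 1 ≤ p → 0 < d → d ≤ 1/100 → ∃ K : ℕ, ∀ k : ℕ, K ≤ k →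
  ∀ j < 2 ^ (k - ee d k), Few (1 / (200 * p)) d k j →
    (∑' n : ℕ, ArithmeticFunction.vonMangoldt n * ker (lamk p d k) (p - 1) (uu d k j - Real.log n)) ≤
      1/8 * (2 : ℝ) ^ k

/-- E11: the line integral is small outside of few cells (`T = 2^(5k)`) -/
def LineFew : Prop := ∀ (p : ℕ) (d : ℝ), 1 ≤ p → 0 < d → d ≤ 1/100 → ∃ K : ℕ, ∀ k : ℕ, K ≤ k →
  ∀ (M : Multiset ℂ) (Z : ℂ → ℂ), Box (2 ^ (5 * k)) M Z →
    (((Finset.range (2 ^ (k - ee d k))).filter (fun j =>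
      1/100 * (2 : ℝ) ^ k ≤ ‖line p (lamk p d k) (2 ^ (5 * k)) Z (uu d k j)‖)).card : ℝ) ≤
      (2 : ℝ) ^ ((0.21 + 5 * d) * k)

/-- E12: high zeros are negligible -/
def HighZeros : Prop := ∀ d : ℝ, 0 < d → d ≤ 1/100 → ∃ p : ℕ, 1 ≤ p ∧ ∃ K : ℕ, ∀ k : ℕ, K ≤ k →
  ∀ (M : Multiset ℂ) (Z : ℂ → ℂ), Box (2 ^ (5 * k)) M Z → ∀ j < 2 ^ (k - ee d k),
    ((M.filter (fun ρ => (2 : ℝ) ^ ((1/2 + 2 * d) * k) < |ρ.im|)).map (fun ρ =>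
      ‖Complex.exp (ρ * uu d k j) * KK (lamk p d k) ρ ^ p‖)).sum ≤ 1

/-- the zeros with `3/5 < Re ρ` and `|Im ρ| ≤ 2^((1/2+2d)k)` -/
def zeroSet (d : ℝ) (k : ℕ) : Set ℂ :=
  {ρ : ℂ | riemannZeta ρ = 0 ∧ 3/5 < ρ.re ∧ |ρ.im| ≤ (2 : ℝ) ^ ((1/2 + 2 * d) * k)}

/-- FINAL RESULT of this part -/
def ExplicitCells : Prop := (∀ (d : ℝ) (k : ℕ), (zeroSet d k).Finite) ∧
  ∀ d : ℝ, 0 < d → d ≤ 1/100 → ∃ c₀ : ℝ, 0 < c₀ ∧ ∃ K : ℕ, ∀ k : ℕ, K ≤ k →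
  ∃ (c : ℂ → ℂ) (Ex : Finset ℕ), (∀ ρ : ℂ, 0 ≤ ρ.re → ρ.re ≤ 1 → ‖c ρ‖ ≤ 2) ∧
    (Ex.card : ℝ) ≤ (2 : ℝ) ^ ((0.21 + 5 * d) * k) ∧
    ∀ j < 2 ^ (k - ee d k), j ∉ Ex → Few c₀ d k j →
      ∀ S : Finset ℂ, (∀ ρ, ρ ∈ S ↔ ρ ∈ zeroSet d k) →
      3/4 ≤ ‖∑ ρ ∈ S, (analyticOrderNatAt riemannZeta ρ : ℂ) * c ρ *
        Complex.exp ((ρ - 1) * uu d k j)‖

end Pool.Agent.Helper46.KSZ
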